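import Pool.Agent.N874.JM.Final
import Pool.Agent.N874.JM.Gnu
import Pool.Agent.N874.Jac.Def
import Pool.Agent.N844.QF.Sel

/-!
# The Selmer group conjecture for a positive proportion of the hyperelliptic Jacobians of every genus over all
# two-coverings of the line over finite fields

Let `g ≥ 1`, let `k` be a finite field of characteristic larger than `2 g + 1`, `K = k(t)`, and let `M` be ANY
finite Galois extension of `K` whose degree is a power of two, with arbitrary ramification: `M = k'(C)` for a
curve `C` over a finite field `k'`, for example any hyperelliptic curve, or any Galois covering of the line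
with a group of order `2 ^ n`. We order ALL the hyperelliptic curves `X : y² = f(x)` with `f` monic of degree
`2 g + 1` over `k[t]`, with trace zero, by height. Theorem: for a positive proportion of them the Jacobian `J`
of `X` over `M` has the following properties.

* All the Selmer groups `Sel(J, 2^m)` over `M` are zero, even without conditions at the places over infinity:
  if a continuous cocycle with values in `J[2^m]` is zero in `H^1(M_v, J)` for all `v` not over infinity,
  then it is the coboundary of an element of `J[2^m]`. So `Sel(J, ℤ_2) = 0`.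
* Multiplication by two is bijective on `J(M)`, so `J(M) ⊗ ℤ_2 = 0`.
* The 2-primary part of the Tate-Shafarevich group of `J` over `M` is zero.

So the map `J(M) ⊗ ℤ_2 → Sel(J, ℤ_2)` of the question is an isomorphism and `T_2 Sha(J) = 0`; and as the
2-primary part of `Sha(J)` is finite, `Sha(J)` is finite (Artin and Tate, Milne; Schneider, Bauer, Kato and
Trihan), so that the question has a positive answer for these `X` over `M` and ALL primes `l`, also for the
characteristic; `J(M)` is finite of odd order and `L(J/M, s)` does not vanish at `s = 1`. (This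
consequence is not formalized.)

The theorem on `J(M)` and the Tate-Shafarevich group is `MP_89bcae_ag.SurfacesOverTwoCovers` (there for the
surfaces `y ^ 2 = f(x, t)` and their Brauer groups), project JM: helper874, after project PJ of helper352 and
project PM of helper874, with parts by helpers 123, 301, 352, 507, 615, 738, 814; project JB: helper352, with
27, 106, 232, 424, 615, 655, based on work of helpers Y160, Y154, Y228, Y317, Y494, Y529, Y705, Y713, TH115;
and, from PJ, PM and PP, 2, 50, 55, 87, 134, 160, 169, 195, 227, 262, 270, 401, 402, 415, 427, 434, 490, 498,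
530, 539, 568, 572, 588, 603, 622, 655, 697, 704, 765, 769, 787. The step to the Selmer groups is in
`N844/QF/Sel.lean` (helper844).
-/

set_option autoImplicit false
set_option linter.all false

open Polynomial Filter IsDedekindDomain

namespace Pool.Agent.Results.MP_1bdb59_nt.SelmerOverTwoCovers

open Pool.Agent.N874.Jac (J mapJ Cochain Cocycle TrivialAtPrimes UniquelyTwoDivisible
  ShaTwoTrivial)

/-! ### The polynomials `f` -/

/-- `f` is monic of degree `2 g + 1` in `x` with trace zero, separable, of height at most `N`, and minimal. -/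
structure IsPoly {k : Type} [Field k] (K : Type) [Field K] [Algebra k[X] K] (g N : ℕ)
    (f : k[X][X]) : Prop where
  monic : f.Monic
  degree : f.natDegree = 2 * g + 1
  trace : f.coeff (2 * g) = 0
  height : ∀ j ≤ 2 * g, (f.coeff j).natDegree ≤ N * (2 * g + 1 - j)
  smooth : (f.map (algebraMap k[X] K)).Separable
  minimal : ∀ P : k[X], Irreducible P →
    ¬ ∀ j < 2 * g + 1, P ^ (2 * (2 * g + 1 - j)) ∣ f.coeff j

/-- The polynomials `f` of height at most `N`. -/
def Polys (k : Type) [Field k] (K : Type) [Field K] [Algebra k[X] K] (g N : ℕ) : Set k[X][X] :=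
  {f | IsPoly K g N f}

/-- The Selmer groups `Sel(J, 2 ^ m)` of the Jacobian `J` of `y ^ 2 = F(x)` over `M` are zero, even without
conditions at the places which do not belong to `R`: for all `m`, every continuous cocycle with values in
`J[2 ^ m]` whose class in `H ^ 1 (M, J)` is zero over the completions of `M` at all maximal ideals of `R` is
the coboundary of an element of `J[2 ^ m]` (`J` is written multiplicatively). -/
def SelmerZero (R : Type) {M : Type} [Field M] [CommRing R] [IsDedekindDomain R] [Algebra R M]
    [IsFractionRing R M] (F : M[X]) : Prop :=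
  ∀ (m : ℕ) (c : Cochain F), Cocycle c → (∀ σ, c σ ^ 2 ^ m = 1) → TrivialAtPrimes R c →
    ∃ P : J F (SeparableClosure M), P ^ 2 ^ m = 1 ∧ ∀ σ, c σ = mapJ F σ.toAlgHom P / P

/-- The `f` of height at most `N` which are irreducible over `K` and such that for the Jacobian `J` of
`y ^ 2 = f` over `M` multiplication by two is bijective on `J(M)`, the 2-primary part of the Tate-Shafarevich
group is zero and all the Selmer groups `Sel(J, 2 ^ m)` are zero. -/
def Good (R : Type) (M : Type) [Field M] [CommRing R] [IsDedekindDomain R] [Algebra R M]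
    [IsFractionRing R M] (k : Type) [Field k] (K : Type) [Field K] [Algebra k[X] K]
    [Algebra k[X] M] (g N : ℕ) : Set k[X][X] :=
  {f ∈ Polys k K g N | Irreducible (f.map (algebraMap k[X] K)) ∧
    UniquelyTwoDivisible (f.map (algebraMap k[X] M)) ∧
    ShaTwoTrivial (f.map (algebraMap k[X] M)) R ∧ SelmerZero R (f.map (algebraMap k[X] M))}

/-- a positive proportion of the `f` ordered by height is good -/
def PositiveProportion (R : Type) (M : Type) [Field M] [CommRing R] [IsDedekindDomain R]
    [Algebra R M] [IsFractionRing R M] (k : Type) [Field k] (K : Type) [Field K] [Algebra k[X] K]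
    [Algebra k[X] M] (g : ℕ) : Prop :=
  (∀ N : ℕ, (Polys k K g N).Finite) ∧ ∃ c : ℝ, 0 < c ∧ ∀ᶠ N : ℕ in atTop,
    0 < (Polys k K g N).ncard ∧ c * ((Polys k K g N).ncard : ℝ) ≤ ((Good R M k K g N).ncard : ℝ)

/-- **Theorem.** For every `g ≥ 1`, every finite field `k` of characteristic larger than `2 g + 1` and every
finite Galois extension `M` of `K = k(t)` of degree `2 ^ n` there is a positive constant `c` such that for all
large `N` at least `c` times the number of all the `f` of height at most `N` are irreducible over `K` and the
Jacobian `J` of `y ^ 2 = f` over `M` is such that multiplication by two is bijective on `J(M)`, the 2-primary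
part of the Tate-Shafarevich group is zero and all the Selmer groups `Sel(J, 2 ^ m)` are zero (`R` is the
integral closure of `k[t]` in `M`). -/
theorem result (g : ℕ) (hg : 1 ≤ g) (k : Type) [Field k] [Finite k]
    (hp : ((2 * g + 1).factorial : k) ≠ 0) (K : Type) [Field K] [Algebra k[X] K]
    [IsFractionRing k[X] K] (M : Type) [Field M] [Algebra K M] [Algebra k[X] M]
    [IsScalarTower k[X] K M] [FiniteDimensional K M] [IsGalois K M] (n : ℕ)
    (hn : Module.finrank K M = 2 ^ n) (R : Type) [CommRing R] [IsDedekindDomain R] [Algebra R M]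
    [IsFractionRing R M] [Algebra k[X] R] [IsScalarTower k[X] R M] [IsIntegralClosure R k[X] M] :
    PositiveProportion R M k K g := by
  have h2 : (2 : k) ≠ 0 := by
    intro h0
    apply hp
    have hd : 2 ∣ (2 * g + 1).factorial := Nat.dvd_factorial (by norm_num) (by omega)
    obtain ⟨e, he⟩ := hd
    rw [he, Nat.cast_mul, Nat.cast_ofNat, h0, zero_mul]
  have h2M : (2 : M) ≠ 0 := by
    have h3 : ((algebraMap k[X] M).comp C) 2 ≠ 0 := by
      rw [Ne, map_eq_zero_iff _ ((algebraMap k[X] M).comp C).injective]
      exact h2
    rwa [map_ofNat] at h3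
  have hsub : ∀ N, Polys k K g N ⊆ {f : k[X][X] | Pool.Agent.N352.PJ.Ht g N f} :=
    fun N f hf => ⟨hf.monic, hf.degree, hf.trace, hf.height⟩
  have hfin : ∀ N, (Polys k K g N).Finite := fun N =>
    (Pool.Agent.N415.PJMAIN.ht_card (k := k) g N).1.subset (hsub N)
  refine ⟨hfin, ?_⟩
  obtain ⟨c, hc, N₀, hN₀⟩ := Pool.Agent.N874.JM.final k hg hp K M R hn
  refine ⟨c, hc, ?_⟩
  filter_upwards [eventually_ge_atTop N₀] with N hN
  obtain ⟨hHt, hle⟩ := hN₀ N hN
  have hsub2 : {f : k[X][X] | Pool.Agent.N352.PJ.Ht g N f ∧ Pool.Agent.N352.PJ.Mini g f ∧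
      (f.map (algebraMap k[X] K)).Separable ∧ Irreducible (f.map (algebraMap k[X] K)) ∧
      Pool.Agent.N874.JM.SelF R (f.map (algebraMap k[X] M))} ⊆ Good R M k K g N :=
    fun f hf => by
      have ho : Odd f.natDegree := by
        rw [hf.1.deg]
        exact odd_two_mul_add_one g
      obtain ⟨h4, h5⟩ := Pool.Agent.N874.JM.genuine K M R hn h2 hf.1.mon ho hf.2.2.1 hf.2.2.2.1
        hf.2.2.2.2
      have hU := Pool.Agent.N874.Jac.div_of _ h4
      have hS := Pool.Agent.N874.Jac.sha_of _ R h5
      have hs : (f.map (algebraMap k[X] M)).Separable := by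
        have e : f.map (algebraMap k[X] M) =
            (f.map (algebraMap k[X] K)).map (algebraMap K M) := by
          rw [Polynomial.map_map, ← IsScalarTower.algebraMap_eq]
        rw [e]
        exact hf.2.2.1.map
      refine ⟨⟨hf.1.mon, hf.1.deg, hf.1.tr, hf.1.ht, hf.2.2.1, hf.2.1⟩, hf.2.2.2.1, hU, hS,
        fun m c hc h1 hl => ?_⟩
      exact Pool.Agent.N844.QF.sel_zero h2M (hf.1.mon.map _) hs
        (by rw [hf.1.mon.natDegree_map]; exact ho) R hU hS m c hc h1 hl
  have hfin2 : (Good R M k K g N).Finite := (hfin N).subset fun f hf => hf.1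
  have h1 := Set.ncard_le_ncard hsub2 hfin2
  have h2 : c * ({f : k[X][X] | Pool.Agent.N352.PJ.Ht g N f}.ncard : ℝ) ≤
      ((Good R M k K g N).ncard : ℝ) := hle.trans (by exact_mod_cast h1)
  have hne : 0 < {f : k[X][X] | Pool.Agent.N352.PJ.Ht g N f}.ncard := by
    rw [Set.ncard_pos hHt]
    refine ⟨X ^ (2 * g + 1), monic_X_pow _, natDegree_X_pow _, ?_, fun j hj => ?_⟩
    · rw [coeff_X_pow, if_neg (by omega)]
    · rw [coeff_X_pow, if_neg (by omega), natDegree_zero]
      exact Nat.zero_le _
  have h3 : 0 < ((Good R M k K g N).ncard : ℝ) := by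
    refine lt_of_lt_of_le ?_ h2
    exact mul_pos hc (by exact_mod_cast hne)
  refine ⟨?_, ?_⟩
  · have h4 := Set.ncard_le_ncard (s := Good R M k K g N) (t := Polys k K g N)
      (fun f hf => hf.1) (hfin N)
    have h5 : 0 < (Good R M k K g N).ncard := by exact_mod_cast h3
    omega
  · refine le_trans ?_ h2
    have h4 := Set.ncard_le_ncard (hsub N) hHt
    exact mul_le_mul_of_nonneg_left (by exact_mod_cast h4) hc.le

end Pool.Agent.Results.MP_1bdb59_nt.SelmerOverTwoCovers
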