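import Pool.Agent.N323.TH.Main

/-!
# MP_1bdb59_nt: superelliptic curves along thin sequences, one set of density zero for all
# number fields

The starting result `AlmostAllCurves` shows, for a number field `k` which contains the `ℓ`-th roots of
unity, that the Tate-Shafarevich groups over `k(t)` have no `ℓ`-torsion for 100 percent of the curves
`y ^ ℓ = g_0(t) (x - g_1(t)) ... (x - g_N(t))`, when the coefficients of the `g_i` run through a box.

Let `P_0, P_1, P_2, …` be an infinite sequence of generalised polynomials `P(t) = ∑ a_x t ^ x` (finitely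
many real exponents, real coefficients, depending on `l`) with distinct leading exponents which are
positive and not integers and have positive coefficients; for example `P_l(t) = t ^ (2 l + √2)`.

**Theorem.** There is ONE set `E` of integers of natural density zero, also of relative density zero in
the set of the primes, such that for ALL number fields `k`, all integral bases `B` of `k`, all primes
`ℓ` with `μ_ℓ ⊂ k`, all `N` prime to `ℓ`, all `n ≥ 4` and all assignments of the `P_l` to the coordinates
(with respect to `B`) of the coefficients of the polynomials `g_0, ..., g_N` in `t` of degree at most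
`n`, the curve `y ^ ℓ = g_0(t) (x - g_1(t)) ... (x - g_N(t))` with the coordinates

`⌊P_l(m)⌋`

satisfies the Selmer group conjecture at `ℓ` over `k(t)`, for all but finitely many integers `m`
outside `E`.
The set `E` depends on the `P_l` only. It does not depend on the number field.

The definitions of the Jacobian, of its Galois cohomology over `k(t)` and of the groups of locally
trivial classes are in `Pool.Agent.Y713.SE.Stm` of the starting library.

Proof. The local criteria of `Pool.Agent.R431.SG` (starting library): finitely many obstructions, each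
of them is found modulo a prime of degree one for a positive proportion of the residues of the
coefficients. Turan's sieve for the integer parts `⌊P_l(m)⌋` (`Pool.Agent.N666.TM`) gives null sets of
exceptions. They depend only on the structure constants of the integral basis (and on the coordinates
of auxiliary polynomials), for which there are countably many possibilities, and a diagonal argument
gives one set.
-/

set_option autoImplicit false
set_option linter.all false

open Polynomial NumberField

namespace Pool.Agent.Results.MP_1bdb59_nt.ThinCurves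

/-- `c` is the largest exponent of the generalised polynomial `∑ a_x t ^ x`; it is positive and not an
integer and has a positive coefficient. -/
def Admissible (F : Finset ℝ) (a : ℝ → ℝ) (c : ℝ) : Prop :=
  c ∈ F ∧ (∀ x ∈ F, x ≤ c) ∧ 0 < c ∧ (∀ m : ℕ, c ≠ m) ∧ 0 < a c

/-- The integer part of the value at `m` of the generalised polynomial `P_l`. -/
noncomputable def value (F : ℕ → Finset ℝ) (a : ℕ → ℝ → ℝ) (m l : ℕ) : ℤ :=
  ⌊∑ x ∈ F l, a l x * (m : ℝ) ^ x⌋

/-- `E` has density zero relative to the sets `S N`. -/
def NullIn (S : ℕ → Finset ℕ) (E : Set ℕ) : Prop :=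
  ∀ ε : ℝ, 0 < ε → ∃ N₀ : ℕ, ∀ N : ℕ, N₀ ≤ N →
    ({t : ℕ | t ∈ S N ∧ t ∈ E}.ncard : ℝ) ≤ ε * (S N).card

/-- The polynomial `c 0 + c 1 t + ... + c n t ^ n` over `k`, where `c j` is the algebraic integer with
the coordinates `v (j, b)` with respect to the integral basis `B`. -/
noncomputable def poly {k : Type} [Field k] [NumberField k] {r : ℕ}
    (B : Module.Basis (Fin r) ℤ (𝓞 k)) {n : ℕ} (v : Fin (n + 1) × Fin r → ℤ) : k[X] :=
  ∑ j : Fin (n + 1), C (algebraMap (𝓞 k) k (∑ b, v (j, b) • B b)) * X ^ (j : ℕ)

/-- The polynomial `g 0 (t) (x - g 1 (t)) ... (x - g N (t))` in `x` over `k(t)`, where the coordinates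
of the coefficients of `g i` are the `v ((i, j), b)`. -/
noncomputable def curve {k : Type} [Field k] [NumberField k] {r : ℕ}
    (B : Module.Basis (Fin r) ℤ (𝓞 k)) {N n : ℕ} (v : (Fin (N + 1) × Fin (n + 1)) × Fin r → ℤ) :
    (RatFunc k)[X] :=
  C (algebraMap k[X] (RatFunc k) (poly B fun q => v ((0, q.1), q.2))) *
    ∏ i : Fin N, (X - C (algebraMap k[X] (RatFunc k) (poly B fun q => v ((i.succ, q.1), q.2))))

theorem result (F : ℕ → Finset ℝ) (a : ℕ → ℝ → ℝ) (c : ℕ → ℝ)
    (h : ∀ l, Admissible (F l) (a l) (c l)) (hc : Function.Injective c) :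
    ∃ E : Set ℕ, NullIn (fun N => Finset.Ioc N (2 * N)) E ∧
      NullIn (fun N => (Finset.Ioc N (2 * N)).filter Nat.Prime) E ∧
      ∀ (k : Type) [Field k] [NumberField k] (r : ℕ) (B : Module.Basis (Fin r) ℤ (𝓞 k)) (ℓ : ℕ)
        (_ : ℓ.Prime) (ζ : k) (_ : IsPrimitiveRoot ζ ℓ)
        (N n : ℕ) (_ : ¬ ℓ ∣ N) (_ : 4 ≤ n)
        (e : (Fin (N + 1) × Fin (n + 1)) × Fin r → ℕ) (_ : Function.Injective e),
        {m : ℕ | m ∉ E ∧ ¬
          (Y713.Jac.ShaPrimaryTrivial ℓ (curve B fun q => value F a m (e q)) k[X] ∧
            Y713.Jac.ShaTateTrivial ℓ (curve B fun q => value F a m (e q)) k[X])}.Finite := by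
  obtain ⟨E, ⟨h1, h2⟩, H⟩ := Pool.Agent.N323.TH.curves_thin h hc
  refine ⟨E, h1, h2, ?_⟩
  intro k _ _ r B ℓ hℓ ζ hζ N n hN hn e he
  refine (H k r B ℓ hℓ ζ hζ N n hN hn e he).subset ?_
  rintro m ⟨hm, hno⟩
  exact ⟨hm, fun hs => hno ⟨hs, Y713.Jac.ShaPrimaryTrivial.tate hs⟩⟩

end Pool.Agent.Results.MP_1bdb59_nt.ThinCurves
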