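import Pool.Agent.N918.EQ.Sel

/-!
# MP_1bdb59_nt: the Selmer group conjecture for superelliptic curves along equidistributed sequences, metric
# sequences and random orbits, for all number fields at the same time

The starting results `AlmostAllCurves`, `AlmostAllMonic` and `AlmostAllTwists` show, for one number field `k`
which contains the roots of unity of order `ℓ`, that the Selmer group conjecture at `ℓ` is true over `k(t)` for
the Jacobians of 100 percent of the curves

* `y ^ ℓ = g_0(t) (x - g_1(t)) ⋯ (x - g_N(t))`,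
* `y ^ ℓ = δ (x - g_0(t)) ⋯ (x - g_N(t))`, for all `δ ≠ 0` in `k` at the same time,
* `y ^ ℓ = D(t) G(x)` for a separable polynomial `G` over `k(t)` with all roots in `k(t)`,

whose coefficient vectors (the coordinates of the coefficients of the `g_i`, or of `D`, in an integral
basis of `k`) are in a box. Here the curves form ONE sequence: `c 0, c 1, c 2, ...` is a sequence of integral
vectors, `S 0, S 1, ...` are finite sets of times, and the property `GoodCurves N n r` (`GoodTwists n r`) of
`(S, c)` means that for ALL number fields `k` of degree `r` with ALL integral bases and ALL primes `ℓ` for which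
`k` contains the roots of unity of order `ℓ` (and, for the twists, ALL `G`) the proportion of the times `m` in
`S M` for which the conclusion fails for the curve with the coefficient vector `c m` tends to zero, `M → ∞`.

**Theorem.** These properties are typical (`Pool.Agent.N918.EQ.Typical`):

(1) All `(S, c)` have them for which `c` is equidistributed along `S` modulo all `q` prime to some number
(`S` is arbitrary: intervals, short intervals, the primes of an interval, any sparse sets).

For the sets of times `{0, ..., M - 1}`: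

(2) For any Koksma sequences `f_{i,0}, f_{i,1}, ...` on intervals, for almost all `x` in the box the sequence
`c m = (⌊f_{i,m}(x_i)⌋)_i` has them.

(3) For ARBITRARY real numbers `a_{i,m}` with `|a_{i,m} - a_{i,m'}| ≥ δ > 0`, `m ≠ m'` (any different integers:
factorials, `2 ^ m`, ...), for almost all real vectors `x` the sequence `c m = (⌊a_{i,m} x_i⌋)_i` has them.

(4) For different natural numbers `k_m` and `ξ_i ≠ 0`, for almost all `x` with all `x_i > 1` the sequence
`c m = (⌊ξ_i x_i ^ (k_m)⌋)_i` has them.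

(5) Let `s_0, ..., s_l` be matrices in `SL_ρ(ℤ)`, `ρ` the number of the coordinates, which generate `SL_ρ(ℤ/q)`
for all `q` prime to some number (by strong approximation: which generate a Zariski dense group, possibly of
infinite index), and `v ≠ 0`. For independent uniformly distributed letters `w 0, w 1, ...` the random orbit
`c m = s_{w (m-1)} ... s_{w 0} v` has them almost surely.

In (2) - (5) there is ONE null set of `x`, or `w`, for all number fields, bases, primes `ℓ` and `G`.

Proof. The local criteria and the proportions of the residue classes are those of the starting results, in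
the form of `Pool.Agent.N323.TH` (helper323); they show that the exceptional sets are pronull
(`Pool.Agent.N918.EQ.Sel`). Random orbits: `Pool.Agent.N24.RW` (helpers 24, 123, 195, 300, 543, 765); metric
sequences: `Pool.Agent.N24.KM` (helpers 24, 344, 617, 199, 764, 432, 286). The exceptional sets depend only on the
structure constants of the integral basis (helper323) and on one auxiliary polynomial, and so they belong to
a countable family.
-/

set_option autoImplicit false
set_option linter.all false

open Polynomial NumberField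

namespace Pool.Agent.Results.MP_1bdb59_nt.TypicalSequences

/-- The proportion of the `m` in `S M` without the property `P` tends to zero, `M → ∞`. -/
def Usually (S : ℕ → Finset ℕ) (P : ℕ → Prop) : Prop :=
  ∀ ε : ℝ, 0 < ε → ∃ M₀ : ℕ, ∀ M : ℕ, M₀ ≤ M →
    (({m : ℕ | m ∈ S M ∧ ¬ P m}.ncard : ℕ) : ℝ) ≤ ε * (S M).card

/-- The polynomial `c 0 + c 1 t + ... + c n t ^ n` over `k`, where `c j` is the algebraic integer with
the coordinates `v (j, b)` with respect to the integral basis `B`. -/
noncomputable def poly {k : Type} [Field k] [NumberField k] {r : ℕ}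
    (B : Module.Basis (Fin r) ℤ (𝓞 k)) {n : ℕ} (v : Fin (n + 1) × Fin r → ℤ) : k[X] :=
  ∑ j : Fin (n + 1), C (algebraMap (𝓞 k) k (∑ b, v (j, b) • B b)) * X ^ (j : ℕ)

/-- The polynomial `g 0 (t) (x - g 1 (t)) ... (x - g N (t))` in `x` over `k(t)`, where the coordinates
of the coefficients of `g i` are the `v ((i, j), b)`. -/
noncomputable def curve {k : Type} [Field k] [NumberField k] {r : ℕ}
    (B : Module.Basis (Fin r) ℤ (𝓞 k)) {N n : ℕ} (v : (Fin (N + 1) × Fin (n + 1)) × Fin r → ℤ) :
    (RatFunc k)[X] :=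
  C (algebraMap k[X] (RatFunc k) (poly B fun q => v ((0, q.1), q.2))) *
    ∏ i : Fin N, (X - C (algebraMap k[X] (RatFunc k) (poly B fun q => v ((i.succ, q.1), q.2))))

/-- The polynomial `δ (x - g 0 (t)) ... (x - g N (t))` in `x` over `k(t)`. -/
noncomputable def monic {k : Type} [Field k] [NumberField k] {r : ℕ}
    (B : Module.Basis (Fin r) ℤ (𝓞 k)) {N n : ℕ} (δ : k)
    (v : (Fin (N + 1) × Fin (n + 1)) × Fin r → ℤ) : (RatFunc k)[X] :=
  C (algebraMap k[X] (RatFunc k) (C δ)) *
    ∏ i : Fin (N + 1), (X - C (algebraMap k[X] (RatFunc k) (poly B fun q => v ((i, q.1), q.2))))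

/-- The polynomial `D(t) G(x)` in `x` over `k(t)`, where the coordinates of the coefficients of `D` are
the `v (j, b)`. -/
noncomputable def twist {k : Type} [Field k] [NumberField k] {r : ℕ}
    (B : Module.Basis (Fin r) ℤ (𝓞 k)) {n : ℕ} (v : Fin (n + 1) × Fin r → ℤ)
    (G : (RatFunc k)[X]) : (RatFunc k)[X] :=
  C (algebraMap k[X] (RatFunc k) (poly B v)) * G

/-- The Selmer group conjecture at `ℓ` for the Jacobian `J` of `y ^ ℓ = F(x)` over `k(t)`: every class of
`ℓ`-power order in `H ^ 1 (k(t), J)` which is zero over the completions at all closed points of the affine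
line is zero, and the `ℓ`-adic Tate module of the group of these classes is zero. -/
def Sha {k : Type} [Field k] (ℓ : ℕ) (F : (RatFunc k)[X]) : Prop :=
  Pool.Agent.Y713.Jac.ShaPrimaryTrivial ℓ F k[X] ∧ Pool.Agent.Y713.Jac.ShaTateTrivial ℓ F k[X]

/-- The conclusion for the curves of the first two families. -/
def GoodCurves (N n r : ℕ) (S : ℕ → Finset ℕ) (c : ℕ → (Fin (N + 1) × Fin (n + 1)) × Fin r → ℤ) :
    Prop :=
  ∀ (k : Type) [Field k] [NumberField k] (B : Module.Basis (Fin r) ℤ (𝓞 k)) (ℓ : ℕ) (_ : ℓ.Prime)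
    (ζ : k) (_ : IsPrimitiveRoot ζ ℓ),
    (¬ ℓ ∣ N → Usually S fun m => Sha ℓ (curve B (c m))) ∧
    (2 ≤ N → ¬ ℓ ∣ N + 1 → Usually S fun m => ∀ δ : k, δ ≠ 0 → Sha ℓ (monic B δ (c m)))

/-- The conclusion for the twists. -/
def GoodTwists (n r : ℕ) (S : ℕ → Finset ℕ) (c : ℕ → Fin (n + 1) × Fin r → ℤ) : Prop :=
  ∀ (k : Type) [Field k] [NumberField k] (B : Module.Basis (Fin r) ℤ (𝓞 k)) (ℓ : ℕ) (_ : ℓ.Prime)
    (ζ : k) (_ : IsPrimitiveRoot ζ ℓ) (G : (RatFunc k)[X]) (_ : G.Splits) (_ : G.Separable)
    (_ : ¬ ℓ ∣ G.natDegree) (_ : n = 2 → ℓ ≠ 2), Usually S fun m => Sha ℓ (twist B (c m) G)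

theorem usually_of_rareIn {ι : Type} [Fintype ι] {S : ℕ → Finset ℕ} {c : ℕ → ι → ℤ}
    {D : Set (ι → ℤ)} {P : ℕ → Prop} (h : Pool.Agent.N918.EQ.RareIn S c D)
    (hP : ∀ m, ¬ P m → c m ∈ D) : Usually S P := by
  intro ε hε
  obtain ⟨M₀, h0⟩ := h ε hε
  refine ⟨M₀, fun M hM => le_trans ?_ (h0 M hM)⟩
  refine Nat.cast_le.2 (Set.ncard_le_ncard ?_ ((S M).finite_toSet.subset fun m hm => hm.1))
  rintro m ⟨h1, h2⟩
  exact ⟨h1, hP m h2⟩

theorem result (n r : ℕ) (hr : 1 ≤ r) :
    (4 ≤ n → ∀ N : ℕ, Pool.Agent.N918.EQ.Typical (GoodCurves N n r)) ∧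
    (2 ≤ n → Pool.Agent.N918.EQ.Typical (GoodTwists n r)) := by
  refine ⟨fun hn N => ?_, fun hn => ?_⟩
  · refine Pool.Agent.N918.EQ.typical_of ?_ _ ?_
    · simp only [Fintype.card_prod, Fintype.card_fin]
      nlinarith [Nat.mul_le_mul (Nat.mul_le_mul (by omega : 1 ≤ N + 1) (by omega : 5 ≤ n + 1)) hr]
    · intro X _ ν P S c hR
      filter_upwards [Pool.Agent.N918.EQ.Sel.ae_curves r N n hn ν P S c hR] with x hx hP
      intro k _ _ B ℓ hℓ ζ hζ
      obtain ⟨h1, h2⟩ := hx hP k B ℓ hℓ ζ hζ
      refine ⟨fun hN => usually_of_rareIn (h1 hN) ?_, fun hN2 hN => usually_of_rareIn (h2 hN2 hN) ?_⟩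
      · intro m hno hs
        exact hno ⟨hs, Pool.Agent.Y713.Jac.ShaPrimaryTrivial.tate hs⟩
      · intro m hno hs
        exact hno fun δ hδ => ⟨hs δ hδ, Pool.Agent.Y713.Jac.ShaPrimaryTrivial.tate (hs δ hδ)⟩
  · refine Pool.Agent.N918.EQ.typical_of ?_ _ ?_
    · simp only [Fintype.card_prod, Fintype.card_fin]
      nlinarith [Nat.mul_le_mul (by omega : 3 ≤ n + 1) hr]
    · intro X _ ν P S c hR
      filter_upwards [Pool.Agent.N918.EQ.Sel.ae_twists r n hn ν P S c hR] with x hx hP
      intro k _ _ B ℓ hℓ ζ hζ G hG1 hG2 hG3 hn2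
      refine usually_of_rareIn (hx hP k B ℓ hℓ ζ hζ G hG1 hG2 hG3 hn2) ?_
      intro m hno hs
      exact hno ⟨hs, Pool.Agent.Y713.Jac.ShaPrimaryTrivial.tate hs⟩

end Pool.Agent.Results.MP_1bdb59_nt.TypicalSequences
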